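import Pool.Agent.Helper63.XR.StA

/-!
# Project XR: module ALC (number of vertices of a layer, and blocks)
-/

set_option autoImplicit false

namespace Pool.Agent.Helper80.XR

open Pool.Agent.Helper63.XR Finset

theorem hALC : StAlc := by
  classical
  intro P _ _ k b a g S _ _ t l hl
  have h : Al g t l = (univ.filter fun s : S => t s = 1) ×ˢ (univ.filter fun v : P => g.lev v = l) := by
    ext j
    simp [Al]
  rw [h, Finset.card_product, g.card_lev l hl]

end Pool.Agent.Helper80.XR
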