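import Pool.Agent.Helper63.XR.StB

/-!
# Project XR: module GCA (Cantor systems)
-/

set_option autoImplicit false

namespace Pool.Agent.Helper80.XR

open Pool.Agent.Helper63.XR Finset Filter Topology

theorem mulap {X : Type} [TopologicalSpace X] (a b : X ≃ₜ X) (t : X) : (a * b) t = a (b t) := rfl

/-- the homeomorphisms fixing a point -/
def fixg {X : Type} [TopologicalSpace X] (t : X) : Subgroup (X ≃ₜ X) where
  carrier := {g | g t = t}
  mul_mem' := by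
    intro a b ha hb
    show (a * b) t = t
    rw [mulap]
    rw [Set.mem_ofPred_eq] at ha hb
    rw [hb, ha]
  one_mem' := rfl
  inv_mem' := by
    intro a ha
    show (a⁻¹) t = t
    rw [Set.mem_ofPred_eq] at ha
    have h1 : (a⁻¹ * a) t = t := by rw [inv_mul_cancel]; rfl
    rw [mulap, ha] at h1
    exact h1

theorem noper {X : Type} [MetricSpace X] [Infinite X] (h : X ≃ₜ X)
    (hd : ∀ x, Dense (Set.range fun n : ℤ => (h ^ n : X ≃ₜ X) x)) (t : X) (i : ℕ) (hi : 0 < i) :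
    (h ^ ((i : ℕ) : ℤ) : X ≃ₜ X) t ≠ t := by
  intro hfix
  have hsub : (Set.range fun n : ℤ => (h ^ n : X ≃ₜ X) t) ⊆
      (fun n : ℤ => (h ^ n : X ≃ₜ X) t) '' (Set.Icc (0 : ℤ) i) := by
    rintro _ ⟨n, rfl⟩
    refine ⟨n % i, ⟨Int.emod_nonneg _ (by omega), (Int.emod_lt_of_pos _ (by omega)).le⟩, ?_⟩
    have hm : (h ^ ((i : ℕ) : ℤ)) ^ (n / (i : ℤ)) ∈ fixg t := Subgroup.zpow_mem _ hfix _
    have hm' : ((h ^ ((i : ℕ) : ℤ)) ^ (n / (i : ℤ)) : X ≃ₜ X) t = t := hm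
    have hn : h ^ n = h ^ (n % (i : ℤ)) * (h ^ ((i : ℕ) : ℤ)) ^ (n / (i : ℤ)) := by
      rw [← zpow_mul, ← zpow_add, Int.emod_add_mul_ediv]
    show (h ^ (n % (i : ℤ)) : X ≃ₜ X) t = (h ^ n : X ≃ₜ X) t
    rw [hn, mulap, hm']
  have hfin : (Set.range fun n : ℤ => (h ^ n : X ≃ₜ X) t).Finite :=
    ((Set.finite_Icc (0 : ℤ) i).image _).subset hsub
  have huniv : (Set.range fun n : ℤ => (h ^ n : X ≃ₜ X) t) = Set.univ := by
    have := (hd t).closure_eq
    rwa [hfin.isClosed.closure_eq] at this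
  rw [huniv] at hfin
  exact Set.infinite_univ hfin

theorem hGCA : StGca := by
  classical
  intro hrec X _ _ _ _ h hd N
  obtain ⟨t⟩ : Nonempty X := inferInstance
  have hU : ∀ i : ℕ, 0 < i → ∃ U : Set X, IsClopen U ∧ t ∈ U ∧
      ∀ x ∈ U, (h ^ ((i : ℕ) : ℤ) : X ≃ₜ X) x ∉ U := by
    intro i hi
    obtain ⟨V, W, hV, hW, htV, htW, hVW⟩ := t2_separation (noper h hd t i hi)
    have hopen : IsOpen (W ∩ (h ^ ((i : ℕ) : ℤ) : X ≃ₜ X) ⁻¹' V) :=
      hW.inter (hV.preimage (h ^ ((i : ℕ) : ℤ) : X ≃ₜ X).continuous)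
    obtain ⟨U, hUc, htU, hUs⟩ := compact_exists_isClopen_in_isOpen hopen ⟨htW, htV⟩
    refine ⟨U, hUc, htU, fun x hx hx' => ?_⟩
    exact Set.disjoint_left.1 hVW (hUs hx).2 (hUs hx').1
  choose! U hUc htU hUd using hU
  set V : Set X := ⋂ i ∈ (Finset.Ioo 0 N), U i with hVdef
  have hVc : IsClopen V := by
    refine ⟨?_, ?_⟩
    · exact isClosed_biInter fun i hi => (hUc i (Finset.mem_Ioo.1 hi).1).1
    · exact isOpen_biInter_finset fun i hi => (hUc i (Finset.mem_Ioo.1 hi).1).2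
  have htV : t ∈ V := by
    rw [hVdef, Set.mem_iInter₂]
    exact fun i hi => htU i (Finset.mem_Ioo.1 hi).1
  let f : C(X, ℝ) := ⟨V.indicator (fun _ => (1 : ℝ)), (continuous_const.indicator
    (fun a ha => by rw [hVc.frontier_eq] at ha; exact absurd ha (Set.notMem_empty a)))⟩
  have hf1 : ∀ x, x ∈ V → f x = 1 := fun x hx => by
    show V.indicator (fun _ => (1 : ℝ)) x = 1
    rw [Set.indicator_of_mem hx]
  have hf0 : ∀ x, x ∉ V → f x = 0 := fun x hx => by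
    show V.indicator (fun _ => (1 : ℝ)) x = 0
    rw [Set.indicator_of_notMem hx]
  refine ⟨t, f, ?_, hf1 t htV, ?_, hrec X h hd t, ?_⟩
  · intro x
    by_cases hx : x ∈ V
    · rw [hf1 x hx]; norm_num
    · rw [hf0 x hx]; norm_num
  · intro x i hi hiN
    by_cases hx : x ∈ V
    · have hxU : x ∈ U i := by
        rw [hVdef, Set.mem_iInter₂] at hx
        exact hx i (Finset.mem_Ioo.2 ⟨hi, hiN⟩)
      have hn : (h ^ ((i : ℕ) : ℤ) : X ≃ₜ X) x ∉ V := by
        intro hc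
        rw [hVdef, Set.mem_iInter₂] at hc
        exact hUd i hi x hxU (hc i (Finset.mem_Ioo.2 ⟨hi, hiN⟩))
      rw [hf0 _ hn, mul_zero]
    · rw [hf0 x hx, zero_mul]
  · refine Filter.Eventually.of_forall fun M => ?_
    have hEq : ((Finset.range M).filter fun j => f ((h ^ ((j : ℕ) : ℤ) : X ≃ₜ X) t) ≠ 0) =
        ((Finset.range M).filter fun j => f ((h ^ ((j : ℕ) : ℤ) : X ≃ₜ X) t) = 1) := by
      apply Finset.filter_congr
      intro j _
      by_cases hx : (h ^ ((j : ℕ) : ℤ) : X ≃ₜ X) t ∈ V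
      · rw [hf1 _ hx]; norm_num
      · rw [hf0 _ hx]; norm_num
    rw [hEq]
    omega

end Pool.Agent.Helper80.XR
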